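import Pool.Agent.helper20.SOL.SpecE

/-! # Row CLQ: a list of mutually orthogonal roots gives a vertex -/

set_option autoImplicit false

namespace Pool.Agent.SOL

open Pool.Agent.helper54.SOG Finset

open scoped BigOperators

theorem CLQ : CLQ_stmt := by
  classical
  intro P L hL hpw
  have hnd : L.Nodup := by
    refine List.Pairwise.imp_of_mem ?_ hpw
    intro a b ha _ hab h
    rw [← h, (hL a ha).2] at hab
    norm_num at hab
  refine ⟨L.toFinset, List.toFinset_card_of_nodup hnd, ?_, ?_, ?_⟩
  · intro a ha
    exact (hL a (List.mem_toFinset.mp ha)).1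
  · intro a ha b hb hab
    have hsym : Std.Symm (fun a b : Vec 8 => dp a b = 0) :=
      ⟨fun a b h => (dp_comm b a).trans h⟩
    exact hpw.forall (List.mem_toFinset.mp ha) (List.mem_toFinset.mp hb) hab
  · rw [List.sum_toFinset (fun a => a) hnd, List.map_id']

end Pool.Agent.SOL
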