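import Pool.Agent.helper20.SOL.SpecE

/-! # Row PRD: products of the entries -/

set_option autoImplicit false

namespace Pool.Agent.SOL

open Pool.Agent.helper54.SOG Finset

open scoped BigOperators

theorem PRD_abs (N : ℕ) (x y : Vec 8) (h : ∀ v : ℤ, cN N x v = cN N y v) :
    |pN N x| = |pN N y| := by
  classical
  have key : ∀ z : Vec 8, |pN N z| =
      ((univ.filter (fun i : Fin 8 => i.val < N)).val.map fun i => |z i|).prod := by
    intro z
    rw [pN, Finset.abs_prod]
    rfl
  have hc : ∀ (z : Vec 8) (v : ℤ),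
      Multiset.count v ((univ.filter (fun i : Fin 8 => i.val < N)).val.map fun i => |z i|) =
        cN N z v := by
    intro z v
    rw [Multiset.count_map, cN]
    have h1 : (univ.filter fun i : Fin 8 => i.val < N ∧ |z i| = v) =
        (univ.filter (fun i : Fin 8 => i.val < N)).filter (fun i => v = |z i|) := by
      ext i
      simp only [Finset.mem_filter, Finset.mem_univ, true_and]
      constructor
      · rintro ⟨h2, h3⟩
        exact ⟨h2, h3.symm⟩
      · rintro ⟨h2, h3⟩
        exact ⟨h2, h3.symm⟩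
    rw [h1]
    rfl
  rw [key x, key y]
  congr 1
  rw [Multiset.ext]
  intro v
  rw [hc, hc, h v]

theorem PRD_mod (S : Finset (Fin 8)) (x : Vec 8) (h : ∀ i ∈ S, x i % 2 = 1) :
    (∏ i ∈ S, x i) % 2 = 1 ∧ (∏ i ∈ S, x i - ∑ i ∈ S, x i + S.card - 1) % 4 = 0 := by
  classical
  induction S using Finset.induction_on with
  | empty => simp
  | insert a S ha ih =>
    obtain ⟨h1, h2⟩ := ih fun i hi => h i (mem_insert_of_mem hi)
    have h3 := h a (mem_insert_self _ _)
    rw [Finset.prod_insert ha, Finset.sum_insert ha, Finset.card_insert_of_notMem ha]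
    obtain ⟨u, hu⟩ : ∃ u, x a = 2 * u + 1 := ⟨x a / 2, by omega⟩
    obtain ⟨w, hw⟩ : ∃ w, ∏ i ∈ S, x i = 2 * w + 1 := ⟨(∏ i ∈ S, x i) / 2, by omega⟩
    rw [hw] at h2
    rw [hu, hw]
    have h4 : (2 * u + 1) * (2 * w + 1) = 4 * (u * w) + 2 * u + 2 * w + 1 := by ring
    rw [h4]
    push_cast
    constructor
    · omega
    · omega

theorem PRD_zero (N : ℕ) (x : Vec 8) (h : 0 < cN N x 0) : pN N x = 0 := by
  rw [cN, Finset.card_pos] at h
  obtain ⟨i, hi⟩ := h
  rw [Finset.mem_filter] at hi
  rw [pN]
  apply Finset.prod_eq_zero (i := i)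
  · rw [Finset.mem_filter]
    exact ⟨mem_univ _, hi.2.1⟩
  · exact abs_eq_zero.mp hi.2.2

theorem PRD : PRD_stmt := by
  classical
  refine ⟨?_, ?_, ?_⟩
  · intro N x y hN hx hy hx0 hxy hc
    have hN0 : 0 < N := by omega
    -- `y` has odd entries
    have hy0 : ∀ i, y i % 2 = 1 := by
      have h1 : 0 < cN N x |x 0| := by
        rw [cN, Finset.card_pos]
        refine ⟨0, ?_⟩
        rw [Finset.mem_filter]
        exact ⟨mem_univ _, by simpa using hN0, rfl⟩
      rw [hc] at h1
      rw [cN, Finset.card_pos] at h1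
      obtain ⟨i, hi⟩ := h1
      rw [Finset.mem_filter] at hi
      have h2 := hi.2.2
      have h3 : y i % 2 = 1 := by
        rcases abs_eq_abs.mp h2 with h4 | h4
        · rw [h4]
          exact hx0
        · rw [h4]
          omega
      intro j
      rw [hy.1 j i, h3]
    have hxo : ∀ i, x i % 2 = 1 := fun i => by rw [hx.1 i 0, hx0]
    have hsplit : ∀ z : Vec 8, ∏ i, z i = pN N z *
        ∏ i ∈ univ.filter (fun i : Fin 8 => ¬ i.val < N), z i := by
      intro z
      rw [pN, Finset.prod_filter_mul_prod_filter_not]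
    have htail : ∏ i ∈ univ.filter (fun i : Fin 8 => ¬ i.val < N), x i =
        ∏ i ∈ univ.filter (fun i : Fin 8 => ¬ i.val < N), y i := by
      apply Finset.prod_congr rfl
      intro i hi
      rw [Finset.mem_filter] at hi
      exact hxy i (not_lt.mp hi.2)
    have px := (PRD_mod univ x fun i _ => hxo i).2
    have py := (PRD_mod univ y fun i _ => hy0 i).2
    have po := (PRD_mod univ x fun i _ => hxo i).1
    rw [Finset.card_univ, Fintype.card_fin] at px py
    have sx := hx.2
    have sy := hy.2
    rcases abs_eq_abs.mp (PRD_abs N x y hc) with h1 | h1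
    · exact h1
    · exfalso
      have h2 : ∏ i, x i = -∏ i, y i := by
        rw [hsplit x, hsplit y, h1, htail, neg_mul]
      rw [h2] at px
      push_cast at px py
      omega
  · intro N x y hc h0
    refine ⟨PRD_zero N x h0, PRD_zero N y ?_⟩
    rw [← hc]
    exact h0
  · intro N x y hc
    exact abs_eq_abs.mp (PRD_abs N x y hc)

end Pool.Agent.SOL
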