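import Pool.Agent.helper20.SOL.Spec

/-! # Row VA1: the vertices of the graph of type A -/

set_option autoImplicit false

namespace Pool.Agent.SOL

open Pool.Agent.helper54.SOG Finset

open scoped BigOperators

theorem VA1_app {n : ℕ} (p q i : Fin n) :
    (Pi.single p 1 - Pi.single q 1 : Fin n → ℝ) i =
      (if i = p then 1 else 0) - (if i = q then 1 else 0) := by
  rw [Pi.sub_apply, Pi.single_apply, Pi.single_apply]

theorem VA1_appZ {n : ℕ} (p q i : Fin n) :
    (Pi.single p 1 - Pi.single q 1 : Vec n) i =
      (if i = p then 1 else 0) - (if i = q then 1 else 0) := by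
  rw [Pi.sub_apply, Pi.single_apply, Pi.single_apply]

theorem VA1_cv {n : ℕ} (p q : Fin n) :
    cv (Pi.single p 1 - Pi.single q 1 : Vec n) = (Pi.single p 1 - Pi.single q 1 : Fin n → ℝ) := by
  funext i
  rw [cv, VA1_app, VA1_appZ]
  push_cast
  rfl

theorem VA1_disj {n : ℕ} {a b : Fin n → ℝ} (ha : a ∈ rootsA n) (hb : b ∈ rootsA n) (hab : a ≠ b)
    (h1 : a + b ≠ 0) (h2 : a + b ∉ rootsA n) (h3 : a - b ∉ rootsA n) (t : Fin n) (ht : a t ≠ 0) :
    b t = 0 := by
  obtain ⟨i, j, hij, rfl⟩ := ha
  obtain ⟨p, q, hpq, rfl⟩ := hb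
  have e1 : i ≠ p := by
    rintro rfl
    rcases eq_or_ne q j with h | h
    · subst h
      exact hab rfl
    · exact h3 ⟨q, j, h, by abel⟩
  have e2 : i ≠ q := by
    rintro rfl
    rcases eq_or_ne p j with h | h
    · subst h
      exact h1 (by abel)
    · exact h2 ⟨p, j, h, by abel⟩
  have e3 : j ≠ p := by
    rintro rfl
    rcases eq_or_ne i q with h | h
    · subst h
      exact h1 (by abel)
    · exact h2 ⟨i, q, h, by abel⟩
  have e4 : j ≠ q := by
    rintro rfl
    rcases eq_or_ne i p with h | h
    · subst h
      exact hab rfl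
    · exact h3 ⟨i, p, h, by abel⟩
  rw [VA1_app] at ht ⊢
  rcases eq_or_ne t i with h | h
  · subst h
    rw [if_neg e1, if_neg e2, sub_self]
  · rcases eq_or_ne t j with h' | h'
    · subst h'
      rw [if_neg e3, if_neg e4, sub_self]
    · rw [if_neg h, if_neg h'] at ht
      exact absurd (sub_self _) ht

theorem VA1_char {n : ℕ} {v : Fin n → ℝ} (hv : v ∈ rootsA n) {i j : Fin n} (hi : v i = 1)
    (hj : v j = -1) : v = Pi.single i 1 - Pi.single j 1 := by
  obtain ⟨p, q, hpq, rfl⟩ := hv
  rw [VA1_app] at hi hj
  have h1 : i = p := by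
    by_contra h
    rw [if_neg h] at hi
    split_ifs at hi <;> norm_num at hi
  have h2 : j = q := by
    by_contra h
    rw [if_neg h] at hj
    split_ifs at hj <;> norm_num at hj
  rw [h1, h2]

theorem VA1_ne {n : ℕ} {v : Fin n → ℝ} (hv : v ∈ rootsA n) : v ≠ 0 := by
  obtain ⟨p, q, hpq, rfl⟩ := hv
  intro h
  have := congrFun h p
  rw [VA1_app, if_pos rfl, if_neg hpq] at this
  norm_num at this

theorem VA1_dp {n : ℕ} (x : Vec n) (i j : Fin n) (hij : i ≠ j) (hi : x i = 0) (hj : x j = 0) :
    dp (x + (Pi.single i 1 - Pi.single j 1)) (x + (Pi.single i 1 - Pi.single j 1)) =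
      dp x x + 2 := by
  unfold dp
  have h1 : ∀ t : Fin n, (x + (Pi.single i 1 - Pi.single j 1) : Vec n) t *
      (x + (Pi.single i 1 - Pi.single j 1) : Vec n) t = x t * x t + ((if t = i then 1 else 0) +
      (if t = j then 1 else 0)) := by
    intro t
    rw [Pi.add_apply, VA1_appZ]
    rcases eq_or_ne t i with h | h
    · subst h
      rw [if_pos rfl, if_neg hij, hi]
      norm_num
    · rcases eq_or_ne t j with h' | h'
      · subst h'
        rw [if_neg h, if_pos rfl, hj]
        norm_num
      · rw [if_neg h, if_neg h']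
        ring
  rw [Finset.sum_congr rfl fun t _ => h1 t, Finset.sum_add_distrib, Finset.sum_add_distrib,
    Finset.sum_ite_eq' univ i, Finset.sum_ite_eq' univ j, if_pos (mem_univ _),
    if_pos (mem_univ _)]
  norm_num

theorem VA1_sum {n : ℕ} (x : Vec n) (i j : Fin n) :
    ∑ t, (x + (Pi.single i 1 - Pi.single j 1) : Vec n) t = ∑ t, x t := by
  have h1 : ∀ t : Fin n, (x + (Pi.single i 1 - Pi.single j 1) : Vec n) t = x t + ((if t = i then 1 else 0) -
      (if t = j then 1 else 0)) := by
    intro t
    rw [Pi.add_apply, VA1_appZ]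
  rw [Finset.sum_congr rfl fun t _ => h1 t, Finset.sum_add_distrib, Finset.sum_sub_distrib,
    Finset.sum_ite_eq' univ i, Finset.sum_ite_eq' univ j, if_pos (mem_univ _),
    if_pos (mem_univ _)]
  norm_num

theorem VA1_fwd {n : ℕ} (S : Finset (Fin n → ℝ)) (hS : IsSOS (rootsA n) S) :
    ∃ x : Vec n, (∀ i, |x i| ≤ 1) ∧ ∑ i, x i = 0 ∧ dp x x = 2 * S.card ∧ cv x = ∑ a ∈ S, a ∧
      ∀ i, x i ≠ 0 → ∃ a ∈ S, a i ≠ 0 := by
  classical
  induction S using Finset.induction_on with
  | empty =>
    refine ⟨0, ?_, ?_, ?_, ?_, ?_⟩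
    · intro i
      simp
    · simp
    · simp [dp]
    · funext i
      simp [cv]
    · intro i hi
      exact absurd rfl hi
  | insert a S ha ih =>
    have hS' : IsSOS (rootsA n) S := ⟨fun b hb => hS.1 b (mem_insert_of_mem hb),
      fun b hb c hc => hS.2 b (mem_insert_of_mem hb) c (mem_insert_of_mem hc)⟩
    obtain ⟨x, h1, h2, h3, h4, h5⟩ := ih hS'
    have hd : ∀ t, a t ≠ 0 → x t = 0 := by
      intro t ht
      by_contra hx
      obtain ⟨b, hb, hbt⟩ := h5 t hx
      have hab : a ≠ b := by
        rintro rfl
        exact ha hb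
      have := hS.2 a (mem_insert_self _ _) b (mem_insert_of_mem hb) hab
      exact hbt (VA1_disj (hS.1 a (mem_insert_self _ _)) (hS.1 b (mem_insert_of_mem hb)) hab
        this.1 this.2.1 this.2.2 t ht)
    obtain ⟨i, j, hij, hae⟩ := hS.1 a (mem_insert_self _ _)
    have hai : a i ≠ 0 := by
      rw [hae, VA1_app, if_pos rfl, if_neg hij]
      norm_num
    have haj : a j ≠ 0 := by
      rw [hae, VA1_app, if_pos rfl, if_neg hij.symm]
      norm_num
    have hxi := hd i hai
    have hxj := hd j haj
    refine ⟨x + (Pi.single i 1 - Pi.single j 1), ?_, ?_, ?_, ?_, ?_⟩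
    · intro t
      rw [Pi.add_apply, VA1_appZ]
      rcases eq_or_ne t i with h | h
      · subst h
        rw [if_pos rfl, if_neg hij, hxi]
        norm_num
      · rcases eq_or_ne t j with h' | h'
        · subst h'
          rw [if_neg h, if_pos rfl, hxj]
          norm_num
        · rw [if_neg h, if_neg h', sub_self, add_zero]
          exact h1 t
    · rw [VA1_sum, h2]
    · rw [VA1_dp x i j hij hxi hxj, h3, Finset.card_insert_of_notMem ha]
      push_cast
      ring
    · rw [Finset.sum_insert ha, ← h4, hae, ← VA1_cv]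
      funext t
      simp only [cv, Pi.add_apply]
      push_cast
      ring
    · intro t ht
      rw [Pi.add_apply, VA1_appZ] at ht
      rcases eq_or_ne t i with h | h
      · subst h
        exact ⟨a, mem_insert_self _ _, hai⟩
      · rcases eq_or_ne t j with h' | h'
        · subst h'
          exact ⟨a, mem_insert_self _ _, haj⟩
        · rw [if_neg h, if_neg h', sub_self, add_zero] at ht
          obtain ⟨b, hb, hbt⟩ := h5 t ht
          exact ⟨b, mem_insert_of_mem hb, hbt⟩

theorem VA1_bwd {n : ℕ} (k : ℕ) : ∀ x : Vec n, x ∈ VA n k → ∃ S : Finset (Fin n → ℝ),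
    S.card = k ∧ IsSOS (rootsA n) S ∧ ∑ a ∈ S, a = cv x ∧ ∀ a ∈ S, ∀ i, a i ≠ 0 → x i ≠ 0 := by
  classical
  induction k with
  | zero =>
    intro x hx
    have hx0 : x = 0 := by
      apply eq_zero_of_dp
      rw [hx.2.2]
      norm_num
    refine ⟨∅, rfl, ⟨fun a ha => absurd ha (notMem_empty a), fun a ha => absurd ha (notMem_empty a)⟩,
      ?_, fun a ha => absurd ha (notMem_empty a)⟩
    rw [hx0, Finset.sum_empty]
    funext i
    simp [cv]
  | succ k ih =>
    intro x hx
    obtain ⟨hb, hsum, hdp⟩ := hx
    have hne : x ≠ 0 := by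
      rintro rfl
      simp [dp] at hdp
      omega
    have hcase : ∀ t, x t = 0 ∨ x t = 1 ∨ x t = -1 := by
      intro t
      have := abs_le.mp (hb t)
      omega
    obtain ⟨t, ht⟩ : ∃ t, x t ≠ 0 := by
      by_contra h
      push Not at h
      exact hne (funext h)
    have hpos : ∃ i, x i = 1 := by
      by_contra h
      push Not at h
      have h1 : ∀ s, x s ≤ 0 := by
        intro s
        rcases hcase s with h2 | h2 | h2
        · omega
        · exact absurd h2 (h s)
        · omega
      have h2 := (Finset.sum_eq_zero_iff_of_nonpos fun s _ => h1 s).mp hsum t (mem_univ _)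
      exact ht h2
    have hneg : ∃ j, x j = -1 := by
      by_contra h
      push Not at h
      have h1 : ∀ s, 0 ≤ x s := by
        intro s
        rcases hcase s with h2 | h2 | h2
        · omega
        · omega
        · exact absurd h2 (h s)
      have h2 := (Finset.sum_eq_zero_iff_of_nonneg fun s _ => h1 s).mp hsum t (mem_univ _)
      exact ht h2
    obtain ⟨i, hi⟩ := hpos
    obtain ⟨j, hj⟩ := hneg
    have hij : i ≠ j := by
      rintro rfl
      omega
    set y : Vec n := fun s => if s = i then 0 else if s = j then 0 else x s with hy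
    have hyi : y i = 0 := by simp [hy]
    have hyj : y j = 0 := by simp [hy]
    have hxy : x = y + (Pi.single i 1 - Pi.single j 1) := by
      funext s
      rw [Pi.add_apply, VA1_appZ]
      rcases eq_or_ne s i with h | h
      · subst h
        rw [hyi, if_pos rfl, if_neg hij, hi]
        norm_num
      · rcases eq_or_ne s j with h' | h'
        · subst h'
          rw [hyj, if_neg h, if_pos rfl, hj]
          norm_num
        · simp [hy, h, h']
    have hyV : y ∈ VA n k := by
      refine ⟨?_, ?_, ?_⟩
      · intro s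
        simp only [hy]
        split_ifs
        · norm_num
        · norm_num
        · exact hb s
      · have := VA1_sum y i j
        rw [← hxy, hsum] at this
        exact this.symm
      · have := VA1_dp y i j hij hyi hyj
        rw [← hxy, hdp] at this
        push_cast at this
        linarith
    obtain ⟨S, hc, hS, hs, hsup⟩ := ih y hyV
    have hSi : ∀ b ∈ S, b i = 0 := by
      intro b hb
      by_contra h
      exact hsup b hb i h hyi
    have hSj : ∀ b ∈ S, b j = 0 := by
      intro b hb
      by_contra h
      exact hsup b hb j h hyj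
    set a : Fin n → ℝ := Pi.single i 1 - Pi.single j 1 with hadef
    have hai : a i = 1 := by
      rw [hadef, VA1_app, if_pos rfl, if_neg hij]
      norm_num
    have haj : a j = -1 := by
      rw [hadef, VA1_app, if_pos rfl, if_neg hij.symm]
      norm_num
    have haR : a ∈ rootsA n := ⟨i, j, hij, rfl⟩
    have haS : a ∉ S := by
      intro h
      have := hSi a h
      rw [hai] at this
      norm_num at this
    have hpair : ∀ b ∈ S, a + b ≠ 0 ∧ a + b ∉ rootsA n ∧ a - b ∉ rootsA n ∧ b - a ∉ rootsA n := by
      intro b hb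
      have hb0 := VA1_ne (hS.1 b hb)
      refine ⟨?_, ?_, ?_, ?_⟩
      · intro h
        have := congrFun h i
        rw [Pi.add_apply, hai, hSi b hb] at this
        norm_num at this
      · intro h
        have := VA1_char h (i := i) (j := j) (by rw [Pi.add_apply, hai, hSi b hb, add_zero])
          (by rw [Pi.add_apply, haj, hSj b hb, add_zero])
        exact hb0 (by rwa [← hadef, add_eq_left] at this)
      · intro h
        have := VA1_char h (i := i) (j := j) (by rw [Pi.sub_apply, hai, hSi b hb, sub_zero])
          (by rw [Pi.sub_apply, haj, hSj b hb, sub_zero])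
        exact hb0 (by rwa [← hadef, sub_eq_self] at this)
      · intro h
        have := VA1_char h (i := j) (j := i) (by rw [Pi.sub_apply, haj, hSj b hb]; norm_num)
          (by rw [Pi.sub_apply, hai, hSi b hb]; norm_num)
        apply hb0
        have h2 : b = a + (Pi.single j 1 - Pi.single i 1) := by rw [← this]; abel
        rw [h2, hadef]
        abel
    refine ⟨insert a S, ?_, ⟨?_, ?_⟩, ?_, ?_⟩
    · rw [Finset.card_insert_of_notMem haS, hc]
    · intro b hb
      rcases Finset.mem_insert.mp hb with h | h
      · rw [h]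
        exact haR
      · exact hS.1 b h
    · intro b hb c hc' hbc
      rcases Finset.mem_insert.mp hb with h | h
      · rcases Finset.mem_insert.mp hc' with h' | h'
        · exact absurd (h.trans h'.symm) hbc
        · rw [h]
          have := hpair c h'
          exact ⟨this.1, this.2.1, this.2.2.1⟩
      · rcases Finset.mem_insert.mp hc' with h' | h'
        · rw [h']
          have := hpair b h
          rw [add_comm a b] at this
          exact ⟨this.1, this.2.1, this.2.2.2⟩
        · exact hS.2 b h c h' hbc
    · rw [Finset.sum_insert haS, hs, hxy, hadef, ← VA1_cv]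
      funext s
      simp only [cv, Pi.add_apply]
      push_cast
      ring
    · intro b hb s hbs
      rcases Finset.mem_insert.mp hb with h | h
      · rw [h, hadef, VA1_app] at hbs
        rcases eq_or_ne s i with h1 | h1
        · rw [h1, hi]
          norm_num
        · rcases eq_or_ne s j with h2 | h2
          · rw [h2, hj]
            norm_num
          · rw [if_neg h1, if_neg h2] at hbs
            exact absurd (sub_self _) hbs
      · have h1 := hsup b h s hbs
        simp only [hy] at h1
        intro h2
        apply h1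
        rw [h2]
        split_ifs <;> rfl

theorem VA1 : VA1_stmt := by
  intro n k
  ext v
  constructor
  · rintro ⟨S, hc, hS, rfl⟩
    obtain ⟨x, h1, h2, h3, h4, _⟩ := VA1_fwd S hS
    exact ⟨x, ⟨h1, h2, by rw [h3, hc]⟩, h4⟩
  · rintro ⟨x, hx, rfl⟩
    obtain ⟨S, hc, hS, hs, _⟩ := VA1_bwd k x hx
    exact ⟨S, hc, hS, hs⟩

end Pool.Agent.SOL
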