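import Pool.Agent.helper20.SOL.SpecE

/-! # Row ELB: basic facts on the lattice -/

set_option autoImplicit false

namespace Pool.Agent.SOL

open Pool.Agent.helper54.SOG Finset

open scoped BigOperators

theorem ELB_add {a b : Vec 8} (ha : a ∈ EL) (hb : b ∈ EL) : a + b ∈ EL := by
  refine ⟨fun i j => ?_, ?_⟩
  · have h1 := ha.1 i j
    have h2 := hb.1 i j
    rw [Pi.add_apply, Pi.add_apply]
    omega
  · have h1 := ha.2
    have h2 := hb.2
    have h3 : ∑ i, (a + b) i = ∑ i, a i + ∑ i, b i := by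
      rw [← Finset.sum_add_distrib]
      rfl
    rw [h3]
    omega

theorem ELB_neg {a : Vec 8} (ha : a ∈ EL) : -a ∈ EL := by
  refine ⟨fun i j => ?_, ?_⟩
  · have h1 := ha.1 i j
    rw [Pi.neg_apply, Pi.neg_apply]
    omega
  · have h1 := ha.2
    have h3 : ∑ i, (-a) i = -∑ i, a i := by
      rw [← Finset.sum_neg_distrib]
      rfl
    rw [h3]
    omega

theorem ELB_zero : (0 : Vec 8) ∈ EL := by
  refine ⟨fun i j => rfl, ?_⟩
  simp

theorem ELB_sum (S : Finset (Vec 8)) (h : ∀ a ∈ S, a ∈ EL) : ∑ a ∈ S, a ∈ EL := by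
  classical
  induction S using Finset.induction_on with
  | empty =>
    rw [Finset.sum_empty]
    exact ELB_zero
  | insert a S ha ih =>
    rw [Finset.sum_insert ha]
    exact ELB_add (h a (mem_insert_self _ _)) (ih fun b hb => h b (mem_insert_of_mem hb))

theorem ELB_norm {a : Vec 8} (ha : a ∈ EL) : dp a a % 8 = 0 := by
  have h1 := ha.2
  rcases Int.emod_two_eq_zero_or_one (a 0) with h0 | h0
  · have h2 : (8 : ℤ) ∣ ∑ i, (a i * a i - 2 * a i) := by
      apply Finset.dvd_sum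
      intro i _
      have h3 : a i % 2 = 0 := by rw [ha.1 i 0, h0]
      obtain ⟨y, hy⟩ : ∃ y, a i = 2 * y := ⟨a i / 2, by omega⟩
      rw [hy]
      have h4 : 2 * y * (2 * y) - 2 * (2 * y) = 4 * (y * (y - 1)) := by ring
      rw [h4]
      have h5 : (2 : ℤ) ∣ y * (y - 1) := (Int.even_mul_pred_self y).two_dvd
      obtain ⟨z, hz⟩ := h5
      rw [hz]
      exact ⟨z, by ring⟩
    rw [Finset.sum_sub_distrib, ← Finset.mul_sum] at h2
    have h3 : dp a a = ∑ i, a i * a i := rfl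
    rw [h3]
    omega
  · have h2 : (8 : ℤ) ∣ ∑ i, (a i * a i - 1) := by
      apply Finset.dvd_sum
      intro i _
      have h3 : a i % 2 = 1 := by rw [ha.1 i 0, h0]
      obtain ⟨y, hy⟩ : ∃ y, a i = 2 * y + 1 := ⟨a i / 2, by omega⟩
      rw [hy]
      have h4 : (2 * y + 1) * (2 * y + 1) - 1 = 4 * (y * (y + 1)) := by ring
      rw [h4]
      have h5 : (2 : ℤ) ∣ y * (y + 1) := (Int.even_mul_succ_self y).two_dvd
      obtain ⟨z, hz⟩ := h5
      rw [hz]
      exact ⟨z, by ring⟩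
    rw [Finset.sum_sub_distrib] at h2
    have h3 : dp a a = ∑ i, a i * a i := rfl
    rw [h3]
    rw [Finset.sum_const, Finset.card_univ, Fintype.card_fin, nsmul_eq_mul, mul_one] at h2
    push_cast at h2
    omega

theorem ELB_dp_add (a b : Vec 8) : dp (a + b) (a + b) = dp a a + 2 * dp a b + dp b b := by
  have h := dp_sub_sub a (-b)
  rw [sub_neg_eq_add, dp_neg_right, dp_neg_neg] at h
  rw [h]
  ring

theorem ELB_dp {a b : Vec 8} (ha : a ∈ EL) (hb : b ∈ EL) : dp a b % 4 = 0 := by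
  have h1 := ELB_norm ha
  have h2 := ELB_norm hb
  have h3 := ELB_norm (ELB_add ha hb)
  rw [ELB_dp_add] at h3
  omega

theorem ELB_dp_sum (a : Vec 8) (S : Finset (Vec 8)) :
    dp a (∑ b ∈ S, b) = ∑ b ∈ S, dp a b := by
  unfold dp
  rw [Finset.sum_comm]
  apply Finset.sum_congr rfl
  intro i _
  rw [Finset.sum_apply, Finset.mul_sum]

theorem ELB_normsum (S : Finset (Vec 8)) (h8 : ∀ a ∈ S, dp a a = 8)
    (ho : ∀ a ∈ S, ∀ b ∈ S, a ≠ b → dp a b = 0) :
    dp (∑ a ∈ S, a) (∑ a ∈ S, a) = 8 * S.card := by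
  classical
  induction S using Finset.induction_on with
  | empty => simp [dp]
  | insert a S ha ih =>
    rw [Finset.sum_insert ha, ELB_dp_add, ELB_dp_sum, ih
      (fun b hb => h8 b (mem_insert_of_mem hb))
      (fun b hb c hc => ho b (mem_insert_of_mem hb) c (mem_insert_of_mem hc)),
      h8 a (mem_insert_self _ _), Finset.card_insert_of_notMem ha]
    have h1 : ∑ b ∈ S, dp a b = 0 := by
      apply Finset.sum_eq_zero
      intro b hb
      apply ho a (mem_insert_self _ _) b (mem_insert_of_mem hb)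
      rintro rfl
      exact ha hb
    rw [h1]
    push_cast
    ring

theorem ELB_R8 {a : Vec 8} (h : a ∈ R8) : a ∈ EL ∧ dp a a = 8 := by
  refine ⟨h.1, ?_⟩
  have := h.2
  simpa using this

theorem ELB_R7 {a : Vec 8} (h : a ∈ R7) : a ∈ EL ∧ a 6 + a 7 = 0 ∧ dp a a = 8 := by
  refine ⟨h.1, h.2.1, ?_⟩
  have := h.2.2
  simpa using this

theorem ELB_R6 {a : Vec 8} (h : a ∈ R6) : a ∈ EL ∧ a 6 + a 7 = 0 ∧ a 5 = a 6 ∧ dp a a = 8 := by
  refine ⟨h.1, h.2.1, h.2.2.1, ?_⟩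
  have := h.2.2.2
  simpa using this

theorem ELB_R8' {a : Vec 8} (h : a ∈ EL ∧ dp a a = 8) : a ∈ R8 := by
  refine ⟨h.1, ?_⟩
  rw [h.2]
  norm_num

theorem ELB_R7' {a : Vec 8} (h : a ∈ EL ∧ a 6 + a 7 = 0 ∧ dp a a = 8) : a ∈ R7 := by
  refine ⟨h.1, h.2.1, ?_⟩
  rw [h.2.2]
  norm_num

theorem ELB_R6' {a : Vec 8} (h : a ∈ EL ∧ a 6 + a 7 = 0 ∧ a 5 = a 6 ∧ dp a a = 8) : a ∈ R6 := by
  refine ⟨h.1, h.2.1, h.2.2.1, ?_⟩
  rw [h.2.2.2]
  norm_num

theorem ELB_VE_neg {P : Set (Vec 8)} (hP : ∀ a ∈ P, -a ∈ P) {k : ℕ} {x : Vec 8}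
    (h : x ∈ VE P k) : -x ∈ VE P k := by
  classical
  obtain ⟨S, hc, hS, ho, rfl⟩ := h
  refine ⟨S.image (fun a => -a), ?_, ?_, ?_, ?_⟩
  · rw [Finset.card_image_of_injective _ neg_injective, hc]
  · intro a ha
    obtain ⟨b, hb, rfl⟩ := Finset.mem_image.mp ha
    exact hP b (hS b hb)
  · intro a ha b hb hab
    obtain ⟨c, hc', rfl⟩ := Finset.mem_image.mp ha
    obtain ⟨d, hd, rfl⟩ := Finset.mem_image.mp hb
    rw [dp_neg_neg]
    exact ho c hc' d hd fun h => hab (by rw [h])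
  · rw [Finset.sum_image fun a _ b _ h => neg_injective h, Finset.sum_neg_distrib]

theorem ELB_VE_mono {P P' : Set (Vec 8)} (hP : P ⊆ P') {k : ℕ} {x : Vec 8}
    (h : x ∈ VE P k) : x ∈ VE P' k := by
  obtain ⟨S, hc, hS, ho, hx⟩ := h
  exact ⟨S, hc, fun a ha => hP (hS a ha), ho, hx⟩

theorem ELB : ELB_stmt := by
  refine ⟨?_, ?_, ?_, ?_, ?_⟩
  · intro a b ha hb
    refine ⟨ELB_add ha hb, ?_, ELB_neg ha⟩
    rw [sub_eq_add_neg]
    exact ELB_add ha (ELB_neg hb)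
  · intro a b ha hb
    exact ⟨ELB_dp ha hb, ELB_norm ha⟩
  · intro k x
    refine ⟨?_, ?_, ?_⟩
    · rintro ⟨S, hc, hS, ho, rfl⟩
      refine ⟨ELB_sum S fun a ha => (hS a ha).1, ?_⟩
      rw [ELB_normsum S (fun a ha => (ELB_R8 (hS a ha)).2) ho, hc]
    · rintro ⟨S, hc, hS, ho, rfl⟩
      refine ⟨ELB_sum S fun a ha => (hS a ha).1, ?_, ?_⟩
      · rw [Finset.sum_apply, Finset.sum_apply, ← Finset.sum_add_distrib]
        exact Finset.sum_eq_zero fun a ha => (hS a ha).2.1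
      · rw [ELB_normsum S (fun a ha => (ELB_R7 (hS a ha)).2.2) ho, hc]
    · rintro ⟨S, hc, hS, ho, rfl⟩
      refine ⟨ELB_sum S fun a ha => (hS a ha).1, ?_, ?_, ?_⟩
      · rw [Finset.sum_apply, Finset.sum_apply, ← Finset.sum_add_distrib]
        exact Finset.sum_eq_zero fun a ha => (hS a ha).2.1
      · rw [Finset.sum_apply, Finset.sum_apply]
        exact Finset.sum_congr rfl fun a ha => (hS a ha).2.2.1
      · rw [ELB_normsum S (fun a ha => (ELB_R6 (hS a ha)).2.2.2) ho, hc]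
  · intro k x
    refine ⟨ELB_VE_neg ?_, ELB_VE_neg ?_, ELB_VE_neg ?_⟩
    · intro a ha
      have h := ELB_R8 ha
      exact ELB_R8' ⟨ELB_neg h.1, by rw [dp_neg_neg]; exact h.2⟩
    · intro a ha
      have h := ELB_R7 ha
      refine ELB_R7' ⟨ELB_neg h.1, ?_, by rw [dp_neg_neg]; exact h.2.2⟩
      have h1 := h.2.1
      rw [Pi.neg_apply, Pi.neg_apply]
      omega
    · intro a ha
      have h := ELB_R6 ha
      refine ELB_R6' ⟨ELB_neg h.1, ?_, ?_, by rw [dp_neg_neg]; exact h.2.2.2⟩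
      · have h1 := h.2.1
        rw [Pi.neg_apply, Pi.neg_apply]
        omega
      · have h1 := h.2.2.1
        rw [Pi.neg_apply, Pi.neg_apply]
        omega
  · intro k x
    refine ⟨ELB_VE_mono ?_, ELB_VE_mono ?_⟩
    · intro a ha
      have h := ELB_R7 ha
      exact ELB_R8' ⟨h.1, h.2.2⟩
    · intro a ha
      have h := ELB_R6 ha
      exact ELB_R7' ⟨h.1, h.2.1, h.2.2.2⟩

end Pool.Agent.SOL
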